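import Pool.Agent.Lib.MP_8e1844_lc.Defs
import Pool.Agent.Lib.MP_8e1844_lc.Proof

/-!
# Shift complexity versus strong shift complexity in the weak degrees

The definitions are in `Pool.Agent.Lib.MP_8e1844_lc.Defs`, the proof is in
`Pool.Agent.Lib.MP_8e1844_lc.Proof`.
-/

namespace Pool.Agent.Results.MP_8e1844_lc.WeakEquiv

open Pool.Agent.Lib.MP_8e1844_lc

/-- For every real `δ > 0`, and so for every rational `δ ∈ (0,1)`, the classes `SC δ` and `SSC δ`
are weakly equivalent, whatever the universal prefix-free machine `U` and the universal left r.e.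
continuous semimeasure `M` are. -/
theorem result (U : List Bool →. List Bool) (hU : IsUniversalMachine U)
    (M : List Bool → ℝ) (hM : IsUniversalSemimeasure M) (δ : ℝ) (h0 : 0 < δ) :
    WeakEquivalent (SC U δ) (SSC M δ) :=
  weakEquivalent_SC_SSC U hU M hM δ h0

end Pool.Agent.Results.MP_8e1844_lc.WeakEquiv
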